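import Pool.Agent.Work.MP_2738db_nt_T.Main

set_option autoImplicit false

/-!
For every `ε > 0` there are `K`, `C` and `δ > 0` such that for all `N ≥ 1` at most `C * N ^ ε` value
triples `(a ^ m, b ^ n, c ^ k)` come from solutions of `a ^ m + b ^ n = c ^ k` with `a, b, c` positive
and pairwise coprime and `m, n, k ≥ 2` in which one base is at most `exp (N ^ δ)` and has exponent at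
least `K`, and the two other bases are at most `N`.
-/

namespace Pool.Agent.Results.MP_2738db_nt.BasesBoxCount

theorem result (ε : ℝ) (hε : 0 < ε) :
    ∃ (K : ℕ) (C δ : ℝ), 0 < δ ∧ ∀ N : ℕ, 1 ≤ N →
      {t : ℕ × ℕ × ℕ | ∃ a b c m n k : ℕ, 0 < a ∧ 0 < b ∧ 0 < c ∧
        Nat.Coprime a b ∧ Nat.Coprime b c ∧ Nat.Coprime a c ∧ 2 ≤ m ∧ 2 ≤ n ∧ 2 ≤ k ∧
        ((K ≤ m ∧ (a : ℝ) ≤ Real.exp ((N : ℝ) ^ δ) ∧ b ≤ N ∧ c ≤ N) ∨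
         (K ≤ n ∧ (b : ℝ) ≤ Real.exp ((N : ℝ) ^ δ) ∧ a ≤ N ∧ c ≤ N) ∨
         (K ≤ k ∧ (c : ℝ) ≤ Real.exp ((N : ℝ) ^ δ) ∧ a ≤ N ∧ b ≤ N)) ∧
        a ^ m + b ^ n = c ^ k ∧ t = (a ^ m, b ^ n, c ^ k)}.Finite ∧
      ({t : ℕ × ℕ × ℕ | ∃ a b c m n k : ℕ, 0 < a ∧ 0 < b ∧ 0 < c ∧
        Nat.Coprime a b ∧ Nat.Coprime b c ∧ Nat.Coprime a c ∧ 2 ≤ m ∧ 2 ≤ n ∧ 2 ≤ k ∧
        ((K ≤ m ∧ (a : ℝ) ≤ Real.exp ((N : ℝ) ^ δ) ∧ b ≤ N ∧ c ≤ N) ∨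
         (K ≤ n ∧ (b : ℝ) ≤ Real.exp ((N : ℝ) ^ δ) ∧ a ≤ N ∧ c ≤ N) ∨
         (K ≤ k ∧ (c : ℝ) ≤ Real.exp ((N : ℝ) ^ δ) ∧ a ≤ N ∧ b ≤ N)) ∧
        a ^ m + b ^ n = c ^ k ∧ t = (a ^ m, b ^ n, c ^ k)}.ncard : ℝ) ≤ C * (N : ℝ) ^ ε :=
  Pool.Agent.Work.MP_2738db_nt_T.main_boxL ε hε

end Pool.Agent.Results.MP_2738db_nt.BasesBoxCount
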