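import Pool.Agent.Work.MP_2738db_nt_W.Final
import Pool.Agent.Work.MP_2738db_nt_W.SievePrimesA

set_option autoImplicit false

/-!
Fermat-Catalan for almost all pairs of bases and all exponents: for all but `ε N₁ N₂` of the coprime
pairs `b ≤ N₁`, `c ≤ N₂`, no `b ^ n + c ^ k` and no `|b ^ n - c ^ k|` (`n, k ≥ 1`) is a perfect power
`a ^ m` with `a ≥ 1`, `m ≥ 2`. The sides of the box may be as different as `log N₁ ≤ (log N₂) ^ κ` and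
`log N₂ ≤ (log N₁) ^ κ`, with `κ` arbitrary but fixed.
-/

namespace Pool.Agent.Results.MP_2738db_nt.DensityOnePairs

open Pool.Agent.Work.MP_2738db_nt_W

theorem result (κ : ℕ) (ε : ℝ) (hε : 0 < ε) :
    ∃ N₀ : ℕ, ∀ N₁ N₂ : ℕ, N₀ ≤ N₁ → N₀ ≤ N₂ →
      Real.log N₁ ≤ (Real.log N₂) ^ κ → Real.log N₂ ≤ (Real.log N₁) ^ κ →
      (Nat.card {p : ℕ × ℕ // (1 ≤ p.1 ∧ p.1 ≤ N₁) ∧ (1 ≤ p.2 ∧ p.2 ≤ N₂) ∧ Nat.Coprime p.1 p.2 ∧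
        ∃ a m n k : ℕ, 1 ≤ a ∧ 2 ≤ m ∧ 1 ≤ n ∧ 1 ≤ k ∧
          (a ^ m + p.1 ^ n = p.2 ^ k ∨ p.1 ^ n + p.2 ^ k = a ^ m ∨ p.2 ^ k + a ^ m = p.1 ^ n)} : ℝ)
        ≤ ε * ((N₁ : ℝ) * N₂) :=
  main_bound κ (exists_sieve_primes' (12 * κ)) ε hε

end Pool.Agent.Results.MP_2738db_nt.DensityOnePairs
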