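import Pool.Agent.Work.MP_2738db_nt_U_helper40.Main
import Pool.Agent.Work.MP_2738db_nt_U_helper12.CRT
import Pool.Agent.Work.MP_2738db_nt_U_helper12.PRI
import Pool.Agent.Work.MP_2738db_nt_U_helper15.LOC
import Pool.Agent.Work.MP_2738db_nt_U_helper15.SMO
import Pool.Agent.Work.MP_2738db_nt_U_helper85.STEP
import Pool.Agent.Work.MP_2738db_nt_U_helper93.ARL

/-!
The Fermat-Catalan conjecture: for every single base `b`, almost all integers `c` are in no solution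
together with `b`, whatever the third base and the exponents.
-/

set_option autoImplicit false

namespace Pool.Agent.Results.MP_2738db_nt.EveryBase

/-- For every `ε` there are `δ > 0` and `N₀` such that for all `N ≥ N₀` and every `b ≥ 2` with
`log b ≤ (log N)^(1/ε)` at most `N exp (-(log N)^(1-ε))` integers `c ≤ N`, coprime to `b` and such that
`b c` has a prime factor `≤ (log N)^(1/ε)`, are in a solution of one of the three equations with
`a ≥ 1`, `m ≥ 2`, `n ≥ 1` and `1 ≤ k ≤ exp (exp ((log N)^δ))`. -/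
theorem result : ∀ ε : ℝ, 0 < ε → ε < 1 → ∃ δ : ℝ, 0 < δ ∧ ∃ N₀ : ℕ, ∀ N : ℕ, N₀ ≤ N →
    ∀ b : ℕ, 2 ≤ b → Real.log b ≤ (Real.log N) ^ (1 / ε) →
    ({c : ℕ | 1 ≤ c ∧ c ≤ N ∧ Nat.Coprime b c ∧
      (∃ p : ℕ, p.Prime ∧ p ∣ b * c ∧ (p : ℝ) ≤ (Real.log N) ^ (1 / ε)) ∧
      ∃ a m n k : ℕ, 1 ≤ a ∧ 2 ≤ m ∧ 1 ≤ n ∧ 1 ≤ k ∧ Real.log k ≤ Real.exp ((Real.log N) ^ δ) ∧
        (a ^ m + b ^ n = c ^ k ∨ b ^ n + c ^ k = a ^ m ∨ c ^ k + a ^ m = b ^ n)}.ncard : ℝ)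
      ≤ N * Real.exp (-(Real.log N) ^ (1 - ε)) :=
  Pool.Agent.Work.MP_2738db_nt_U.helper40.stmt_U
    Pool.Agent.Work.MP_2738db_nt_U.helper15.stmt_Loc
    Pool.Agent.Work.MP_2738db_nt_U.helper15.stmt_Smo
    Pool.Agent.Work.MP_2738db_nt_U.helper12.stmt_PRI
    Pool.Agent.Work.MP_2738db_nt_U.helper12.stmt_CRT
    (Pool.Agent.Work.MP_2738db_nt_U.helper85.stmt_Step
      Pool.Agent.Work.MP_2738db_nt_U.helper93.stmt_ARL)

end Pool.Agent.Results.MP_2738db_nt.EveryBase
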