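import Mathlib
import Pool.Agent.Work.MP_2738db_nt_V.Main

/-!
# A generic base of a Fermat-Catalan solution

There is a set `G` of natural numbers of natural density one such that for all `a ∈ G`: if in an
equation between `a ^ m` (any `m ≥ 1`), `b ^ n`, `c ^ k` with coprime `b, c` the exponents `n`
and `k` have greatest common divisor at least `3`, then `m` is even, and `a` is divisible by all
odd prime factors of `gcd n k`, and by `2` if `4 ∣ gcd n k`.  In particular, in every solution of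
the Fermat-Catalan equation in which one of the three terms is an odd power of some `a ∈ G`, the
exponents of the two other terms have greatest common divisor at most `2`.
-/

namespace Pool.Agent.Results.MP_2738db_nt.GenericBase

open Filter Topology

theorem result : ∃ G : Set ℕ,
    Tendsto (fun N : ℕ => ((G ∩ Set.Icc 1 N).ncard : ℝ) / N) atTop (𝓝 1) ∧
    ∀ a ∈ G, ∀ m n k b c : ℕ, 1 ≤ m → Nat.Coprime b c →
      (a ^ m + b ^ n = c ^ k ∨ a ^ m + c ^ k = b ^ n ∨ b ^ n + c ^ k = a ^ m) →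
      3 ≤ Nat.gcd n k →
      Even m ∧ (∀ l : ℕ, l.Prime → l ≠ 2 → l ∣ Nat.gcd n k → l ∣ a) ∧ (4 ∣ Nat.gcd n k → 2 ∣ a) := by
  classical
  have key : ∀ a : ℕ, 1 ≤ a → a ∉ Pool.Agent.Work.MP_2738db_nt_V.Bad → ∀ m d : ℕ, ∀ X Y : ℤ,
      1 ≤ m → 3 ≤ d → IsCoprime X Y →
      ((a : ℤ) ^ m = X ^ d + Y ^ d ∨ (a : ℤ) ^ m = X ^ d - Y ^ d) →
      Even m ∧ (∀ l : ℕ, l.Prime → l ≠ 2 → l ∣ d → l ∣ a) ∧ (4 ∣ d → 2 ∣ a) := by
    intro a ha hbad m d X Y hm hd hco h
    by_contra hcon
    exact hbad ⟨ha, m, d, X, Y, hm, hd, hco, h, hcon⟩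
  refine ⟨{a | 1 ≤ a ∧ a ∉ Pool.Agent.Work.MP_2738db_nt_V.Bad}, ?_, ?_⟩
  · -- the density
    have h0 := Pool.Agent.Work.MP_2738db_nt_V.UD_zero_iff.mp
      Pool.Agent.Work.MP_2738db_nt_V.Bad_density
    have h1 := h0.const_sub 1
    rw [sub_zero] at h1
    refine h1.congr' ?_
    filter_upwards [eventually_gt_atTop 0] with N hN
    have hN' : (0 : ℝ) < N := by exact_mod_cast hN
    have h2 : (({a : ℕ | 1 ≤ a ∧ a ∉ Pool.Agent.Work.MP_2738db_nt_V.Bad} ∩ Set.Icc 1 N).ncard : ℝ) =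
        N - Pool.Agent.Work.MP_2738db_nt_V.cnt Pool.Agent.Work.MP_2738db_nt_V.Bad N := by
      have h3 : ({a : ℕ | 1 ≤ a ∧ a ∉ Pool.Agent.Work.MP_2738db_nt_V.Bad} ∩ Set.Icc 1 N) =
          ((Finset.Icc 1 N).filter
            (fun a => a ∉ Pool.Agent.Work.MP_2738db_nt_V.Bad) : Finset ℕ) := by
        ext a
        simp only [Set.mem_inter_iff, Set.mem_ofPred_eq, Set.mem_Icc, Finset.coe_filter,
          Finset.mem_Icc]
        tauto
      rw [h3, Set.ncard_coe_finset]
      have h4 : Pool.Agent.Work.MP_2738db_nt_V.cnt Pool.Agent.Work.MP_2738db_nt_V.Bad N =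
          (((Finset.Icc 1 N).filter
            (fun a => a ∈ Pool.Agent.Work.MP_2738db_nt_V.Bad)).card : ℝ) := by
        unfold Pool.Agent.Work.MP_2738db_nt_V.cnt
        rw [Finset.card_filter]
        push_cast
        apply Finset.sum_congr rfl
        intro a _
        rw [Set.indicator_apply]
      rw [h4]
      have h5 := Finset.card_filter_add_card_filter_not (s := Finset.Icc 1 N)
        (fun a => a ∈ Pool.Agent.Work.MP_2738db_nt_V.Bad)
      rw [Nat.card_Icc, Nat.add_sub_cancel] at h5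
      have h6 : (((Finset.Icc 1 N).filter
          (fun a => a ∈ Pool.Agent.Work.MP_2738db_nt_V.Bad)).card : ℝ) +
          (((Finset.Icc 1 N).filter
          (fun a => a ∉ Pool.Agent.Work.MP_2738db_nt_V.Bad)).card : ℝ) = N := by
        exact_mod_cast h5
      linarith
    rw [h2]
    field_simp
  · rintro a ⟨ha, hbad⟩ m n k b c hm hco h hd
    set d := Nat.gcd n k with hdef
    obtain ⟨n', hn'⟩ : d ∣ n := Nat.gcd_dvd_left n k
    obtain ⟨k', hk'⟩ : d ∣ k := Nat.gcd_dvd_right n k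
    have hcoI : IsCoprime ((b : ℤ) ^ n') ((c : ℤ) ^ k') :=
      (Nat.isCoprime_iff_coprime.mpr hco).pow
    have hb : (b : ℤ) ^ n = ((b : ℤ) ^ n') ^ d := by rw [← pow_mul, mul_comm n' d, ← hn']
    have hc : (c : ℤ) ^ k = ((c : ℤ) ^ k') ^ d := by rw [← pow_mul, mul_comm k' d, ← hk']
    rcases h with h | h | h
    · apply key a ha hbad m d _ _ hm hd hcoI.symm
      right
      rw [← hb, ← hc]
      have h' : (a : ℤ) ^ m + (b : ℤ) ^ n = (c : ℤ) ^ k := by exact_mod_cast h
      linarith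
    · apply key a ha hbad m d _ _ hm hd hcoI
      right
      rw [← hb, ← hc]
      have h' : (a : ℤ) ^ m + (c : ℤ) ^ k = (b : ℤ) ^ n := by exact_mod_cast h
      linarith
    · apply key a ha hbad m d _ _ hm hd hcoI
      left
      rw [← hb, ← hc]
      have h' : (b : ℤ) ^ n + (c : ℤ) ^ k = (a : ℤ) ^ m := by exact_mod_cast h
      linarith

end Pool.Agent.Results.MP_2738db_nt.GenericBase
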