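import Mathlib
import Pool.Agent.Work.MP_2738db_nt_Z_helper40.Main2
import Pool.Agent.Work.MP_2738db_nt_Z_helper40.SMW
import Pool.Agent.Work.MP_2738db_nt_Z_helper49.SUP
import Pool.Agent.Work.MP_2738db_nt_Z_helper55.DPR
import Pool.Agent.Work.MP_2738db_nt_Z_helper55.MOM
import Pool.Agent.Work.MP_2738db_nt_U_helper15.LOC
import Pool.Agent.Work.MP_2738db_nt_U_helper85.STEP
import Pool.Agent.Work.MP_2738db_nt_U_helper93.ARL

/-!
MP_2738db_nt (the Fermat-Catalan conjecture): for every finite set `S` of at most `(log N)^σ`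
integers and every arithmetic progression of `N` terms, all below `exp ((log N)^(1/ε))`, all but
`N^(1-κ)` of the terms `c` of the progression are such that no power `c^k`, `k` with at most
`exp ((log N)^(1-σ-ε))` different prime factors, differs from an `m`-th power by an element of the
monoid generated by `S` which is coprime to `c`, provided that `m`, or all elements of `S`, or `c`
(if `S` has one element) have a prime factor at most `(log N)^(1/ε)`.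
-/

set_option autoImplicit false

namespace Pool.Agent.Results.MP_2738db_nt.ShortProgressions

theorem result :
    ∀ ε σ : ℝ, 0 < ε → 0 ≤ σ → σ + ε < 1 → ∃ κ : ℝ, 0 < κ ∧ ∃ N₀ : ℕ, ∀ N : ℕ, N₀ ≤ N →
      ∀ (S : Finset ℕ) (g r : ℕ), (S.card : ℝ) ≤ (Real.log N) ^ σ →
      (∀ b ∈ S, 2 ≤ b ∧ Real.log b ≤ (Real.log N) ^ (1 / ε)) →
      1 ≤ g → Real.log (g + r) ≤ (Real.log N) ^ (1 / ε) →
      ({x : ℕ | 1 ≤ x ∧ x ≤ N ∧
        ∃ a B m k : ℕ, B ∈ Submonoid.closure (S : Set ℕ) ∧ Nat.Coprime B (g * x + r) ∧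
          1 ≤ a ∧ 2 ≤ m ∧ 1 ≤ k ∧
          (k.primeFactors.card : ℝ) ≤ Real.exp ((Real.log N) ^ (1 - σ - ε)) ∧
          ((∃ p : ℕ, p.Prime ∧ p ∣ m ∧ (p : ℝ) ≤ (Real.log N) ^ (1 / ε)) ∨
            (∀ b ∈ S, ∃ p : ℕ, p.Prime ∧ p ∣ b ∧ (p : ℝ) ≤ (Real.log N) ^ (1 / ε)) ∨
            (S.card = 1 ∧ ∃ p : ℕ, p.Prime ∧ p ∣ g * x + r ∧ (p : ℝ) ≤ (Real.log N) ^ (1 / ε))) ∧
          (a ^ m + B = (g * x + r) ^ k ∨ B + (g * x + r) ^ k = a ^ m ∨
            (g * x + r) ^ k + a ^ m = B)}.ncard : ℝ) ≤ (N : ℝ) ^ (1 - κ) :=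
  Pool.Agent.Work.MP_2738db_nt_Z.helper40.stmt_ZS
    Pool.Agent.Work.MP_2738db_nt_U.helper15.stmt_Loc
    Pool.Agent.Work.MP_2738db_nt_Z.helper40.stmt_Smw
    (Pool.Agent.Work.MP_2738db_nt_Z.helper55.stmt_Dpr
      Pool.Agent.Work.MP_2738db_nt_Z.helper49.stmt_Sup)
    Pool.Agent.Work.MP_2738db_nt_Z.helper55.stmt_Mom
    (Pool.Agent.Work.MP_2738db_nt_U.helper85.stmt_Step
      Pool.Agent.Work.MP_2738db_nt_U.helper93.stmt_ARL)
    (Pool.Agent.Work.MP_2738db_nt_Z.helper40.stepG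
      Pool.Agent.Work.MP_2738db_nt_U.helper93.stmt_ARL)

end Pool.Agent.Results.MP_2738db_nt.ShortProgressions
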