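import Pool.Agent.Work.MP_2738db_nt_helper84.Main

set_option autoImplicit false

/-!
The number of value triples `(a ^ m, b ^ n, c ^ k)` with `a, b, c` positive and pairwise coprime,
`m, n, k ≥ 2`, `a ^ m + b ^ n = c ^ k ≤ X`, in which one of the three bases is at most `X ^ η`, is
`O(X ^ (√(η / 2) + η + ε))` for all `0 < η ≤ 1` and `ε > 0`, uniformly in the exponents. A solution
with some exponent at least `K` has a base at most `X ^ (1 / K)`.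
-/

namespace Pool.Agent.Results.MP_2738db_nt.SmallBaseCount

open Pool.Agent.Work.MP_2738db_nt_helper84

theorem result (η ε : ℝ) (hη : 0 < η) (hη1 : η ≤ 1) (hε : 0 < ε) :
    ∃ C : ℝ, ∀ X : ℕ, 1 ≤ X →
      {p : ℕ × ℕ × ℕ | ∃ a b c m n k : ℕ, 0 < a ∧ 0 < b ∧ 0 < c ∧
        Nat.Coprime a b ∧ Nat.Coprime b c ∧ Nat.Coprime a c ∧ 2 ≤ m ∧ 2 ≤ n ∧ 2 ≤ k ∧
        a ^ m + b ^ n = c ^ k ∧ c ^ k ≤ X ∧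
        ((a : ℝ) ≤ (X : ℝ) ^ η ∨ (b : ℝ) ≤ (X : ℝ) ^ η ∨ (c : ℝ) ≤ (X : ℝ) ^ η) ∧
        p = (a ^ m, b ^ n, c ^ k)}.Finite ∧
      ({p : ℕ × ℕ × ℕ | ∃ a b c m n k : ℕ, 0 < a ∧ 0 < b ∧ 0 < c ∧
        Nat.Coprime a b ∧ Nat.Coprime b c ∧ Nat.Coprime a c ∧ 2 ≤ m ∧ 2 ≤ n ∧ 2 ≤ k ∧
        a ^ m + b ^ n = c ^ k ∧ c ^ k ≤ X ∧
        ((a : ℝ) ≤ (X : ℝ) ^ η ∨ (b : ℝ) ≤ (X : ℝ) ^ η ∨ (c : ℝ) ≤ (X : ℝ) ^ η) ∧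
        p = (a ^ m, b ^ n, c ^ k)}.ncard : ℝ) ≤ C * (X : ℝ) ^ (Real.sqrt (η / 2) + η + ε) := by
  obtain ⟨C, -, h⟩ := final η ε hη hη1 hε
  refine ⟨C, ?_⟩
  intro X hX
  have hS : {p : ℕ × ℕ × ℕ | ∃ a b c m n k : ℕ, 0 < a ∧ 0 < b ∧ 0 < c ∧
        Nat.Coprime a b ∧ Nat.Coprime b c ∧ Nat.Coprime a c ∧ 2 ≤ m ∧ 2 ≤ n ∧ 2 ≤ k ∧
        a ^ m + b ^ n = c ^ k ∧ c ^ k ≤ X ∧
        ((a : ℝ) ≤ (X : ℝ) ^ η ∨ (b : ℝ) ≤ (X : ℝ) ^ η ∨ (c : ℝ) ≤ (X : ℝ) ^ η) ∧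
        p = (a ^ m, b ^ n, c ^ k)} ⊆ Sol ⌊(X : ℝ) ^ η⌋₊ X := by
    rintro p ⟨a, b, c, m, n, k, ha, hb, hc, hab, hbc, hac, hm, hn, hk, he, hcX, hor, rfl⟩
    refine ⟨a, b, c, m, n, k, ha, hb, hc, hab, hbc, hac, hm, hn, hk, ?_, he, hcX, rfl⟩
    rcases hor with h1 | h1 | h1
    · exact Or.inl (Nat.le_floor h1)
    · exact Or.inr (Or.inl (Nat.le_floor h1))
    · exact Or.inr (Or.inr (Nat.le_floor h1))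
  obtain ⟨h1, h2⟩ := h X hX
  refine ⟨h1.subset hS, le_trans ?_ h2⟩
  exact_mod_cast Set.ncard_le_ncard hS h1

end Pool.Agent.Results.MP_2738db_nt.SmallBaseCount
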