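import Mathlib
import Pool.Agent.Work.MP_2738db_nt_X_helper40.Final

/-!
MP_2738db_nt (the Fermat-Catalan conjecture): for every `X` large enough, every base `b ≤ X` and every
arithmetic progression of `N ≥ exp ((log log X)^(1+ε))` terms, all at most `X`, all but `N^(1-κ)` of
the terms `c` coprime to `b` are in no solution of `a^m + b^n = c^k`, `b^n + c^k = a^m` or
`c^k + a^m = b^n` with `a ≥ 1`, `m ≥ 2`, `n, k ≥ 1`, in which `log n` and `log k` are at most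
`(log X)^A`, or `k` has at most `exp ((log N)^(1-ε))` different prime factors and `m`, `b` or `c` has
a prime factor at most `exp ((log N)^(1-ε))`.
-/

set_option autoImplicit false

namespace Pool.Agent.Results.MP_2738db_nt.TinyIntervals

theorem result :
    ∀ ε : ℝ, 0 < ε → ∃ κ : ℝ, 0 < κ ∧ ∀ A : ℝ, ∃ X₀ : ℝ, ∀ X N b g r : ℕ, X₀ ≤ X →
      Real.exp (Real.log (Real.log X) ^ (1 + ε)) ≤ N → 2 ≤ b → b ≤ X → 1 ≤ g → g * N + r ≤ X →
      ({x : ℕ | 1 ≤ x ∧ x ≤ N ∧ Nat.Coprime b (g * x + r) ∧ ∃ a m n k : ℕ, 1 ≤ a ∧ 2 ≤ m ∧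
          1 ≤ n ∧ 1 ≤ k ∧
          ((Real.log n ≤ (Real.log X) ^ A ∧ Real.log k ≤ (Real.log X) ^ A) ∨
            ((∃ p : ℕ, p.Prime ∧ Real.log p ≤ (Real.log N) ^ (1 - ε) ∧ p ∣ m * b * (g * x + r)) ∧
              (k.primeFactors.card : ℝ) ≤ Real.exp ((Real.log N) ^ (1 - ε)))) ∧
          (a ^ m + b ^ n = (g * x + r) ^ k ∨ b ^ n + (g * x + r) ^ k = a ^ m ∨
            (g * x + r) ^ k + a ^ m = b ^ n)}.ncard : ℝ) ≤ (N : ℝ) ^ (1 - κ) :=
  Pool.Agent.Work.MP_2738db_nt_X.helper40.final_XA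

end Pool.Agent.Results.MP_2738db_nt.TinyIntervals
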